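import Pool.Agent.Helper39_MWKP.Pur2

/-!
# Squad MWKP, row ABT (helper39)
-/

set_option autoImplicit false

namespace Pool.Agent.MWKP.H39

open Pool.Agent.Helper14_MV Pool.Agent.Helper2_MV Pool.Agent.MWK

/-- the bit with exponents: `P X^(1+s) C qs R ~ P X C X^s qs R` -/
def Ex1 (m s : ℕ) (θ : FIC) : Prop :=
  ∀ (P X C : List ℕ) (qs : List (List ℕ)) (R : List ℕ), qs.length = m → Ok (P ++ X ++ C) C qs →
    RR θ (P ++ pw (1 + s) X ++ C ++ qs.flatten ++ R) (P ++ X ++ C ++ pw s X ++ qs.flatten ++ R)

/-- the letters of a power of `X` after `X` are dead -/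
theorem dead_pw {A B X : List ℕ} {j : ℕ} {z : ℕ} (hz : z ∈ pw j X) :
    2 ≤ (A ++ X ++ B ++ pw j X).count z := by
  have h1 : 0 < (pw j X).count z := List.count_pos_iff.2 hz
  have h2 : 0 < X.count z := List.count_pos_iff.2 (mem_pw hz)
  simp only [List.count_append]
  omega

theorem ok_pw {A B X C : List ℕ} {qs : List (List ℕ)} {j : ℕ} (h : Ok (A ++ X ++ B) C qs) :
    Ok (A ++ X ++ (B ++ pw j X)) (C ++ pw j X) qs := by
  refine ok_add h ?_ ?_
  · intro l
    simp only [List.count_append]
    omega
  · intro z hz
    rcases List.mem_append.1 hz with h1 | h1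
    · exact Or.inl h1
    · right
      have := dead_pw (A := A) (B := B) h1
      simp only [List.count_append] at this ⊢
      omega

theorem ex1_mul {m s : ℕ} {θ : FIC} (h : Ex1 m s θ) : ∀ t, Ex1 m (t * s) θ := by
  intro t
  induction t with
  | zero =>
    intro P X C qs R _ _
    simp only [Nat.zero_mul, Nat.add_zero, pw_one, pw_zero, List.append_nil]
    exact RR.refl _
  | succ t ih =>
    intro P X C qs R hlen hok
    have e1 : 1 + (t + 1) * s = t * s + (1 + s) := by ring
    have e2 : (t + 1) * s = s + t * s := by ring
    rw [e1, e2, pw_add (t * s), pw_add s]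
    have h1 := h (P ++ pw (t * s) X) X C qs R hlen (T.okm qs _ _ _ _ hok (by
      intro l
      simp only [List.count_append]
      omega) (fun z hz => hz))
    have h2 := ih P X (C ++ pw s X) qs R hlen (ok_pw hok)
    have e3 : P ++ pw (1 + t * s) X ++ (C ++ pw s X) ++ qs.flatten ++ R =
        P ++ pw (t * s) X ++ X ++ C ++ pw s X ++ qs.flatten ++ R := by
      rw [Nat.add_comm 1, pw_add, pw_one]
      simp only [List.append_assoc]
    rw [e3] at h2
    have h3 := rtrans h1 h2
    simp only [List.append_assoc] at h3 ⊢
    exact h3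

theorem abt (kdd : KddStmt) (kpg : KpgStmt) (kit : KitStmt) (spf : SpfStmt) (pur : PurStmt) :
    AbtStmt := by
  intro n θ hK m u v x y cs hr hlen h2u h1v hyu hyv hcu hcv hc2 hv2
  have hn := hK.pos
  have hxy : x ≠ y := by
    rintro rfl
    have h3 : (pre u x).count x = 0 := List.count_eq_zero.2 (not_mem_pre u x)
    omega
  have hxc : x ∉ cs := by
    intro h
    have h3 := hc2 x h
    have h4 : (pre v x).count x = 0 := List.count_eq_zero.2 (not_mem_pre v x)
    omega
  obtain ⟨b, b', hb, hb', α, γ, hmain⟩ := pur2 spf pur hK hxy hr hxc hcu hcv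
  have hb1 : 1 ≤ b' := by
    have h3 : 2 ≤ (hd cs v).count x := by
      cases cs with
      | nil => exact hv2
      | cons c cs => exact hc2 c List.mem_cons_self
    omega
  obtain ⟨a, ha⟩ : ∃ a, a = (pre u y).count x := ⟨_, rfl⟩
  rw [← ha, h1v] at hmain
  rw [← ha] at h2u
  simp only [pw_one] at hmain
  -- (E1)
  have hE1 : ∀ (P X C : List ℕ) (qs : List (List ℕ)) (R : List ℕ), qs.length = m →
      Ok (P ++ X ++ C) C qs →
        RR θ (P ++ pw a X ++ C ++ pw b X ++ qs.flatten ++ R)
          (P ++ X ++ C ++ pw (n - 1 + (a + b)) X ++ qs.flatten ++ R) := by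
    intro P X C qs R hq hok
    have hq' : qs.length = cs.length := by omega
    have hcX : ∀ l, X.count l ≤ (pw b' X).count l := by
      intro l
      rw [count_pw]
      exact Nat.le_mul_of_pos_left _ hb1
    have hdX : ∀ z ∈ X, 2 ≤ (P ++ X ++ C ++ pw b' X).count z := by
      intro z hz
      have h3 : 0 < X.count z := List.count_pos_iff.2 hz
      have h4 := hcX z
      simp only [List.count_append]
      omega
    have hokU : Ok (P ++ pw a X ++ C ++ pw b X) (X ++ C) qs := by
      refine ok_add hok ?_ ?_
      · intro l
        have h3 : X.count l ≤ a * X.count l := Nat.le_mul_of_pos_left _ (by omega)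
        simp only [List.count_append, count_pw]
        omega
      · intro z hz
        rcases List.mem_append.1 hz with h3 | h3
        · right
          have h4 : 0 < X.count z := List.count_pos_iff.2 h3
          have h5 : 2 * X.count z ≤ a * X.count z := Nat.mul_le_mul_right _ h2u
          simp only [List.count_append, count_pw]
          omega
        · exact Or.inl h3
    have hokV : Ok (P ++ X ++ C ++ pw b' X) (X ++ C) qs := by
      refine ok_add hok ?_ ?_
      · intro l
        simp only [List.count_append]
        omega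
      · intro z hz
        rcases List.mem_append.1 hz with h3 | h3
        · exact Or.inr (hdX z h3)
        · exact Or.inl h3
    -- (A)
    have hA := hmain X C P qs R hq' hokU hokV
    -- (Y)
    have hY : RR θ (P ++ X ++ C ++ pw b' X ++ insF (fun i => pw (α i) X) 0 qs ++ R)
        (P ++ X ++ C ++ pw b' X ++ insF (fun i => pw (α i) X ++ pw (γ i) C) 0 qs ++ R) := by
      cases qs with
      | nil => exact RR.refl _
      | cons q qs =>
        have hoks : Ok (P ++ X ++ C) C
            ((pw b' X ++ (q ++ pw (α 0) X)) :: segF (fun i => pw (α i) X) 1 qs) := by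
          have h3 : Ok (P ++ X ++ C ++ (pw b' X ++ (q ++ pw (α 0) X)))
              (pw b' X ++ (q ++ pw (α 0) X)) qs := by
            refine ok_add hok.2 ?_ ?_
            · intro l
              simp only [List.count_append]
              omega
            · intro z hz
              rcases List.mem_append.1 hz with h4 | h4
              · right
                have h5 := hdX z (mem_pw h4)
                simp only [List.count_append] at h5 ⊢
                omega
              · rcases List.mem_append.1 h4 with h4 | h4
                · exact Or.inl h4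
                · right
                  have h5 := hdX z (mem_pw h4)
                  simp only [List.count_append] at h5 ⊢
                  omega
          refine ⟨?_, ok_seg qs 1 _ _ h3 ?_⟩
          · intro z hz
            have h5 := hok.1 z hz
            simp only [List.count_append] at h5 ⊢
            omega
          · intro i l hl
            apply dh_of_dead
            have h5 := hdX l (mem_pw hl)
            simp only [List.count_append] at h5 ⊢
            omega
        have h5 := hmain [] C (P ++ X)
          ((pw b' X ++ (q ++ pw (α 0) X)) :: segF (fun i => pw (α i) X) 1 qs) R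
          (by rw [List.length_cons, length_segF]; exact hq')
          (by simpa only [pw_nil, List.nil_append, List.append_nil] using hoks)
          (by simpa only [pw_nil, List.nil_append, List.append_nil] using hoks)
        simp only [pw_nil, List.nil_append, List.append_nil] at h5
        have e1 : P ++ X ++ C ++ ((pw b' X ++ (q ++ pw (α 0) X)) ::
            segF (fun i => pw (α i) X) 1 qs).flatten ++ R =
            P ++ X ++ C ++ pw b' X ++ insF (fun i => pw (α i) X) 0 (q :: qs) ++ R := by
          rw [List.flatten_cons, flatten_segF]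
          show _ = P ++ X ++ C ++ pw b' X ++ (q ++ pw (α 0) X ++
            insF (fun i => pw (α i) X) 1 qs) ++ R
          simp only [List.append_assoc]
        have e2 : P ++ X ++ C ++ insF (fun i => pw (γ i) C) 0 ((pw b' X ++ (q ++ pw (α 0) X)) ::
            segF (fun i => pw (α i) X) 1 qs) ++ R =
            P ++ X ++ C ++ pw b' X ++ insF (fun i => pw (α i) X ++ pw (γ i) C) 0 (q :: qs) ++ R := by
          show P ++ X ++ C ++ ((pw b' X ++ (q ++ pw (α 0) X)) ++ pw (γ 0) C ++
            insF (fun i => pw (γ i) C) 1 (segF (fun i => pw (α i) X) 1 qs)) ++ R =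
            P ++ X ++ C ++ pw b' X ++ (q ++ (pw (α 0) X ++ pw (γ 0) C) ++
              insF (fun i => pw (α i) X ++ pw (γ i) C) 1 qs) ++ R
          rw [insF_segF]
          simp only [List.append_assoc]
        rw [e1, e2] at h5
        exact h5
    -- (X)
    have hX : RR θ (P ++ X ++ C ++ pw (n - 1 + (a + b)) X ++ qs.flatten ++ R)
        (P ++ X ++ C ++ pw (n - 1 + (1 + b')) X ++ insF (fun i => pw (α i) X) 0 qs ++ R) := by
      have hd1 : ∀ (i : ℕ), 2 ≤ i → Ok (P ++ X ++ C ++ pw (n - 1) X ++ pw i X) (X ++ []) qs := by
        intro i hi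
        refine ok_add hok ?_ ?_
        · intro l
          simp only [List.count_append]
          omega
        · intro z hz
          right
          have h3 : z ∈ X := by simpa using hz
          have h4 : 0 < X.count z := List.count_pos_iff.2 h3
          have h5 : 2 * X.count z ≤ i * X.count z := Nat.mul_le_mul_right _ hi
          simp only [List.count_append, count_pw]
          omega
      have h5 := hmain X [] (P ++ X ++ C ++ pw (n - 1) X) qs R hq' (by
          have := hd1 (a + b) (by omega)
          rw [pw_add] at this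
          simpa only [List.append_nil, List.append_assoc] using this) (by
          have := hd1 (1 + b') (by omega)
          rw [pw_add, pw_one] at this
          simpa only [List.append_nil, List.append_assoc] using this)
      simp only [pw_nil, List.append_nil] at h5
      rw [pw_add (n - 1), pw_add (n - 1), pw_add a, pw_add 1, pw_one]
      simp only [List.append_assoc] at h5 ⊢
      exact h5
    have hG : RR θ (P ++ X ++ C ++ pw (n - 1 + (1 + b')) X ++ insF (fun i => pw (α i) X) 0 qs ++ R)
        (P ++ X ++ C ++ pw b' X ++ insF (fun i => pw (α i) X) 0 qs ++ R) := by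
      have h5 := kpg n θ hK (P ++ X ++ C) X (insF (fun i => pw (α i) X) 0 qs ++ R)
        (n - 1 + (1 + b')) b' (fun l hl => by simp [hl]) (by omega) hb1 (by
          have h6 : n - 1 + (1 + b') = n + b' := by omega
          rw [h6]
          exact Nat.add_modEq_left)
      simp only [List.append_assoc] at h5 ⊢
      exact h5
    exact rtrans hA (rtrans hY.symm (rtrans hG.symm hX.symm))
  -- (E2)
  have hE2 : Ex1 m (a - 1) θ := by
    intro P X C qs R hq hok
    have h5 := hE1 P X (C ++ pw ((n - 1) * b) X) qs R hq (ok_pw hok)
    have e1 : P ++ pw a X ++ (C ++ pw ((n - 1) * b) X) ++ pw b X ++ qs.flatten ++ R =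
        P ++ pw a X ++ C ++ pw (n * b) X ++ (qs.flatten ++ R) := by
      have h6 : n * b = (n - 1) * b + b := by
        obtain ⟨k, rfl⟩ : ∃ k, n = k + 1 := ⟨n - 1, by omega⟩
        simp only [Nat.add_sub_cancel]
        ring
      rw [h6, pw_add]
      simp only [List.append_assoc]
    have e2 : P ++ X ++ (C ++ pw ((n - 1) * b) X) ++ pw (n - 1 + (a + b)) X ++ qs.flatten ++ R =
        P ++ X ++ C ++ pw (n * (b + 1) + (a - 1)) X ++ (qs.flatten ++ R) := by
      have h6 : n * (b + 1) + (a - 1) = (n - 1) * b + (n - 1 + (a + b)) := by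
        obtain ⟨k, rfl⟩ : ∃ k, n = k + 1 := ⟨n - 1, by omega⟩
        obtain ⟨k', rfl⟩ : ∃ k', a = k' + 1 := ⟨a - 1, by omega⟩
        simp only [Nat.add_sub_cancel]
        ring
      rw [h6, pw_add ((n - 1) * b)]
      simp only [List.append_assoc]
    rw [e1, e2] at h5
    have h7 : RR θ (P ++ pw a X ++ C ++ pw (n * b) X ++ (qs.flatten ++ R))
        (P ++ pw a X ++ C ++ [] ++ (qs.flatten ++ R)) := by
      refine kdd n θ hK _ _ _ _ ?_ (fun l hl => absurd hl List.not_mem_nil) ?_
      · intro l hl
        have h8 : 0 < X.count l := List.count_pos_iff.2 (mem_pw hl)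
        have h9 : 2 * X.count l ≤ a * X.count l := Nat.mul_le_mul_right _ h2u
        simp only [List.count_append, count_pw]
        omega
      · intro l
        rw [count_pw, List.count_nil, Nat.mul_assoc]
        exact (Nat.modEq_zero_iff_dvd).2 ⟨b * X.count l, rfl⟩
    have h8 : RR θ (P ++ X ++ C ++ pw (n * (b + 1) + (a - 1)) X ++ (qs.flatten ++ R))
        (P ++ X ++ C ++ pw (a - 1) X ++ (qs.flatten ++ R)) := by
      refine kpg n θ hK _ _ _ _ _ (fun l hl => by simp [hl]) (by omega) (by omega) ?_
      have h9 : n * (b + 1) + (a - 1) ≡ 0 + (a - 1) [MOD n] :=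
        Nat.ModEq.add_right _ ((Nat.modEq_zero_iff_dvd).2 ⟨b + 1, rfl⟩)
      rwa [Nat.zero_add] at h9
    have e3 : 1 + (a - 1) = a := by omega
    rw [e3]
    have h9 := rtrans h7.symm (rtrans h5 h8)
    simp only [List.append_nil, List.append_assoc] at h9 ⊢
    exact h9
  -- conclusion
  intro P X C qs R hq hok
  have h5 := ex1_mul hE2 n P X C qs R hq hok
  have hs : 1 ≤ n * (a - 1) := Nat.mul_pos hn (by omega)
  have hmod : n * (a - 1) ≡ n [MOD n] :=
    ((Nat.modEq_zero_iff_dvd).2 ⟨a - 1, rfl⟩).trans ((Nat.modEq_zero_iff_dvd).2 ⟨1, by ring⟩).symm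
  have h6 := kpg n θ hK (P ++ X) X (C ++ qs.flatten ++ R) (n * (a - 1)) n
    (fun l hl => by simp [hl]) hs hn hmod
  have h7 := kpg n θ hK (P ++ X ++ C) X (qs.flatten ++ R) (n * (a - 1)) n
    (fun l hl => by simp [hl]) hs hn hmod
  rw [pw_add, pw_one] at h5
  simp only [List.append_assoc] at h5 h6 h7 ⊢
  exact rtrans h6.symm (rtrans h5 h7)

end Pool.Agent.MWKP.H39
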