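import Pool.Agent.Helper39_MWKP.Pur2

/-!
# Squad MWKP, row FBT (helper39)
-/

set_option autoImplicit false

namespace Pool.Agent.MWKP.H39

open Pool.Agent.Helper14_MV Pool.Agent.Helper2_MV Pool.Agent.MWK

theorem flatten_eq (qs : List (List ℕ)) : qs.flatten = insF (fun _ => []) 0 qs :=
  (insF_nil qs 0).symm

theorem fbt (kdd : KddStmt) (kit : KitStmt) (spf : SpfStmt) (pur : PurStmt) : FbtStmt := by
  intro n θ hK m u v x y cs hr hlen hxu hyv hyu hxv hcu hcv
  have hxy : x ≠ y := by
    rintro rfl
    exact not_mem_pre u x hxu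
  have hxc : x ∉ cs := hcu.not_mem (by simp)
  have hcu' : Chc u [y] cs := chc_sub hcu (by simp)
  have hcv' : Chc v [y] cs := chc_sub hcv (by simp)
  obtain ⟨b, b', hb, hb', α, γ, hmain⟩ := pur2 spf pur hK hxy hr hxc hcu' hcv'
  have h1 : (hd cs u).count x = 1 := hd_count hcu (by simp)
  have h2 : (hd cs v).count x = 1 := hd_count hcv (by simp)
  have h3 : 0 < (pre u y).count x := List.count_pos_iff.2 hxu
  have h4 : (pre v y).count x = 0 := List.count_eq_zero.2 (pre_asymm hyv)
  have ea : (pre u y).count x = 1 := by omega
  have eb : b = 0 := by omega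
  have eb' : b' = 1 := by omega
  rw [ea, eb, h4, eb'] at hmain
  simp only [pw_zero, pw_one, List.append_nil] at hmain
  intro P X Y qs R hq hok
  have hq' : qs.length = cs.length := by omega
  -- all letters of `X`, `Y` are dead after the first segment
  have hdX : ∀ l ∈ X ++ Y, Dh (P ++ X ++ Y) qs l := fun l hl => ok_dh hok hl
  have hcnt : ∀ l, (P ++ X ++ Y).count l = (P ++ Y ++ X).count l := by
    intro l
    simp only [List.count_append]
    omega
  have hok2 : Ok (P ++ Y ++ X) (X ++ Y) qs := ok_add hok (fun l => (hcnt l).le) (fun z hz => Or.inl hz)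
  have hdX2 : ∀ l ∈ X ++ Y, Dh (P ++ Y ++ X) qs l := fun l hl => ok_dh hok2 hl
  -- (A)
  have hA := hmain X Y P qs R hq' hok hok2
  -- (Y)
  have hY : RR θ (P ++ Y ++ X ++ qs.flatten ++ R)
      (P ++ Y ++ X ++ insF (fun i => pw (γ i) Y) 0 qs ++ R) := by
    cases qs with
    | nil => exact RR.refl _
    | cons q qs =>
      have h5 := hmain [] Y P ((X ++ q) :: qs) R hq' ?_ ?_
      · simp only [pw_nil, List.nil_append, List.append_nil] at h5
        have e1 : P ++ Y ++ ((X ++ q) :: qs).flatten ++ R = P ++ Y ++ X ++ (q :: qs).flatten ++ R := by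
          simp only [List.flatten_cons, List.append_assoc]
        have e2 : P ++ Y ++ insF (fun i => pw (γ i) Y) 0 ((X ++ q) :: qs) ++ R =
            P ++ Y ++ X ++ insF (fun i => pw (γ i) Y) 0 (q :: qs) ++ R := by
          show P ++ Y ++ ((X ++ q) ++ pw (γ 0) Y ++ insF (fun i => pw (γ i) Y) 1 qs) ++ R =
            P ++ Y ++ X ++ (q ++ pw (γ 0) Y ++ insF (fun i => pw (γ i) Y) 1 qs) ++ R
          simp only [List.append_assoc]
        rw [e1, e2] at h5
        exact h5
      all_goals
        simp only [List.append_nil, List.nil_append]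
        refine ⟨?_, ?_⟩
        · intro z hz
          have h6 := hdX2 z (List.mem_append_right _ hz) q qs rfl
          simp only [List.count_append] at h6 ⊢
          omega
        · refine ok_add hok2.2 ?_ ?_
          · intro l
            simp only [List.count_append]
            omega
          · intro z hz
            rcases List.mem_append.1 hz with h7 | h7
            · right
              have h6 := hdX2 z (List.mem_append_left _ h7) q qs rfl
              simp only [List.count_append] at h6 ⊢
              omega
            · exact Or.inl h7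
  -- (X)
  have hX : RR θ (P ++ Y ++ X ++ insF (fun i => pw (γ i) Y) 0 qs ++ R)
      (P ++ Y ++ X ++ insF (fun i => pw (γ i) Y ++ pw (α i) X) 0 qs ++ R) := by
    have hdY : ∀ i, ∀ l ∈ pw (γ i) Y, Dh (P ++ Y ++ X) qs l := fun i l hl =>
      hdX2 l (List.mem_append_right _ (mem_pw hl))
    have hok3 : Ok (P ++ Y ++ X) X (segF (fun i => pw (γ i) Y) 0 qs) :=
      ok_seg qs 0 _ _ (T.okm qs _ _ _ _ hok2 (fun l => le_refl _)
        (fun z hz => List.mem_append_left _ hz)) hdY
    have h5 := hmain X [] (P ++ Y) (segF (fun i => pw (γ i) Y) 0 qs) R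
      (by rw [length_segF]; exact hq') (by simpa using hok3) (by simpa using hok3)
    simp only [pw_nil, List.append_nil] at h5
    rw [flatten_segF, insF_segF] at h5
    exact h5
  have hD : RR θ (P ++ Y ++ X ++ insF (fun i => pw (γ i) Y ++ pw (α i) X) 0 qs ++ R)
      (P ++ Y ++ X ++ insF (fun i => pw (α i) X ++ pw (γ i) Y) 0 qs ++ R) := by
    refine insF_dead kdd hK ?_ qs 0 _ R ?_
    · intro i l
      simp only [List.count_append]
      rw [Nat.add_comm]
    · intro i l hl
      have h6 : l ∈ X ++ Y := by
        rcases hl with h | h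
        · rcases List.mem_append.1 h with h | h
          · exact List.mem_append_right _ (mem_pw h)
          · exact List.mem_append_left _ (mem_pw h)
        · rcases List.mem_append.1 h with h | h
          · exact List.mem_append_left _ (mem_pw h)
          · exact List.mem_append_right _ (mem_pw h)
      exact hdX2 l h6
  exact rtrans hA (rtrans hD.symm (rtrans hX.symm hY.symm))

end Pool.Agent.MWKP.H39
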