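import Pool.Agent.MWKP.StmtsN
import Pool.Agent.Helper76_MWK.NEC

/-! Squad MWKP, row NEN (helper39), twin of the row NEC (helper76) -/

set_option autoImplicit false

namespace Pool.Agent.MWKP.H39

open Pool.Agent.Helper14_MV Pool.Agent.Helper2_MV Pool.Agent.MWK
open Pool.Agent.MWF (Ap gaml RR_gaml)

theorem mem_rep {n : ℕ} (hn : 1 ≤ n) (f : ℕ → List ℕ) (c : ℕ) :
    c ∈ (List.replicate n 0).flatMap f ↔ c ∈ f 0 := by
  rw [List.mem_flatMap]
  constructor
  · rintro ⟨a, ha, hc⟩
    rw [List.eq_of_mem_replicate ha] at hc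
    exact hc
  · intro hc
    exact ⟨0, List.mem_replicate.2 ⟨by omega, rfl⟩, hc⟩

theorem rep_nil {n : ℕ} {f : ℕ → List ℕ} (h : f 0 = []) : (List.replicate n 0).flatMap f = [] := by
  rw [List.flatMap_eq_nil_iff]
  intro a ha
  rw [List.eq_of_mem_replicate ha]
  exact h

theorem nen : NenStmt := by
  intro n hn
  constructor
  · refine RR_gaml fun f p q => ?_
    obtain ⟨X, hXd⟩ : ∃ X, X = (List.replicate n 0).flatMap f := ⟨_, rfl⟩
    have e1 : p ++ [0, 0, 1].flatMap f ++ q = (p ++ f 0) ++ f 0 ++ (f 1 ++ q) := by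
      simp [List.flatMap_cons]
    have e2 : p ++ (0 :: 0 :: 1 :: List.replicate n 0).flatMap f ++ q =
        (p ++ f 0) ++ f 0 ++ (f 1 ++ X ++ q) := by
      rw [hXd]
      simp only [List.flatMap_cons, List.append_assoc]
    rw [e1, e2]
    by_cases hX : f 0 = []
    · rw [hXd, rep_nil hX, hX, List.append_nil, List.append_nil, List.append_nil]
    · have hk : ∀ r, PC ((p ++ f 0) ++ f 0 ++ r) → ∃ s, p ++ f 0 = 0 :: 1 :: 2 :: s := fun r =>
        H76.key (p ++ f 0) (f 0) r hX fun x hx => List.mem_append_right _ hx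
      have hm : (∃ s, p ++ f 0 = 0 :: 1 :: 2 :: s) →
          (PC ((p ++ f 0) ++ f 0 ++ (f 1 ++ q)) ↔ PC ((p ++ f 0) ++ f 0 ++ (f 1 ++ X ++ q))) := by
        rintro ⟨s, hs⟩
        rw [hs]
        simp only [List.cons_append]
        refine H76.pc_mem fun c => ?_
        have h1 : c ∈ X ↔ c ∈ f 0 := by
          rw [hXd]
          exact mem_rep hn f c
        simp only [List.mem_append, h1]
        tauto
      constructor
      · intro h
        exact (hm (hk _ h)).1 h
      · intro h
        exact (hm (hk _ h)).2 h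
  · refine RR_gaml fun f p q => ?_
    obtain ⟨X, hXd⟩ : ∃ X, X = (List.replicate n 0).flatMap f := ⟨_, rfl⟩
    have e1 : p ++ [0, 1, 0].flatMap f ++ q = (p ++ f 0 ++ f 1) ++ f 0 ++ q := by
      simp [List.flatMap_cons]
    have e2 : p ++ (0 :: 1 :: List.replicate (n + 1) 0).flatMap f ++ q =
        (p ++ f 0 ++ f 1) ++ f 0 ++ (X ++ q) := by
      rw [hXd]
      simp only [List.flatMap_cons, List.replicate_succ, List.append_assoc]
    rw [e1, e2]
    by_cases hX : f 0 = []
    · rw [hXd, rep_nil hX, hX, List.nil_append]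
    · have hk : ∀ r, PC ((p ++ f 0 ++ f 1) ++ f 0 ++ r) → ∃ s, p ++ f 0 ++ f 1 = 0 :: 1 :: 2 :: s :=
        fun r => H76.key (p ++ f 0 ++ f 1) (f 0) r hX fun x hx =>
          List.mem_append_left _ (List.mem_append_right _ hx)
      have hm : (∃ s, p ++ f 0 ++ f 1 = 0 :: 1 :: 2 :: s) →
          (PC ((p ++ f 0 ++ f 1) ++ f 0 ++ q) ↔ PC ((p ++ f 0 ++ f 1) ++ f 0 ++ (X ++ q))) := by
        rintro ⟨s, hs⟩
        rw [hs]
        simp only [List.cons_append]
        refine H76.pc_mem fun c => ?_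
        have h1 : c ∈ X ↔ c ∈ f 0 := by
          rw [hXd]
          exact mem_rep hn f c
        simp only [List.mem_append, h1]
        tauto
      constructor
      · intro h
        exact (hm (hk _ h)).1 h
      · intro h
        exact (hm (hk _ h)).2 h

end Pool.Agent.MWKP.H39
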