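import Pool.Agent.MWKP.Stmts

/-!
# Squad MWKP (helper39): tools for the rows FBT, ABT

`insF F s qs = q₀ F(s) q₁ F(s+1) ..`; the key lemma PUR for two letters (theorem `pur2`).
-/

set_option autoImplicit false

namespace Pool.Agent.MWKP.H39

open Pool.Agent.Helper14_MV Pool.Agent.Helper2_MV Pool.Agent.MWK

theorem rtrans {θ : FIC} {a b c : List ℕ} (h : RR θ a b) (h' : RR θ b c) : RR θ a c :=
  θ.trans h h'

/-! ### powers -/

theorem pw_zero (X : List ℕ) : pw 0 X = [] := rfl

theorem pw_succ (k : ℕ) (X : List ℕ) : pw (k + 1) X = X ++ pw k X := rfl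

theorem pw_one (X : List ℕ) : pw 1 X = X := by
  rw [pw_succ, pw_zero, List.append_nil]

theorem pw_add (i j : ℕ) (X : List ℕ) : pw (i + j) X = pw i X ++ pw j X := by
  induction i with
  | zero => rw [Nat.zero_add, pw_zero, List.nil_append]
  | succ i ih => rw [Nat.succ_add, pw_succ, pw_succ, ih, List.append_assoc]

theorem pw_nil (k : ℕ) : pw k [] = [] := by
  induction k with
  | zero => rfl
  | succ k ih => rw [pw_succ, ih]; rfl

theorem count_pw (k : ℕ) (X : List ℕ) (l : ℕ) : (pw k X).count l = k * X.count l := by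
  induction k with
  | zero => simp [pw_zero]
  | succ k ih => rw [pw_succ, List.count_append, ih]; ring

theorem mem_pw {k : ℕ} {X : List ℕ} {l : ℕ} (h : l ∈ pw k X) : l ∈ X := by
  have h1 : 0 < (pw k X).count l := List.count_pos_iff.2 h
  rw [count_pw] at h1
  exact List.count_pos_iff.1 (Nat.pos_of_mul_pos_left h1)

theorem flatMap_rep (k x : ℕ) (g : ℕ → List ℕ) :
    (List.replicate k x).flatMap g = pw k (g x) := by
  induction k with
  | zero => rfl
  | succ k ih => rw [List.replicate_succ, List.flatMap_cons, ih, pw_succ]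

/-! ### insertion of words behind the segments -/

/-- `q₀ F(s) q₁ F(s+1) ..` -/
def insF (F : ℕ → List ℕ) : ℕ → List (List ℕ) → List ℕ
  | _, [] => []
  | s, q :: qs => q ++ F s ++ insF F (s + 1) qs

/-- the segments `q₀ G(s), q₁ G(s+1), ..` -/
def segF (G : ℕ → List ℕ) : ℕ → List (List ℕ) → List (List ℕ)
  | _, [] => []
  | s, q :: qs => (q ++ G s) :: segF G (s + 1) qs

theorem ins_eq (L : List ℕ) (g : ℕ → List ℕ) (ξ : ℕ → ℕ → ℕ) :
    ∀ (qs : List (List ℕ)) (s : ℕ),
      ins L g ξ s qs = insF (fun i => L.flatMap (fun z => pw (ξ i z) (g z))) s qs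
  | [], _ => rfl
  | q :: qs, s => by
    have h := ins_eq L g ξ qs (s + 1)
    show q ++ L.flatMap (fun z => pw (ξ s z) (g z)) ++ ins L g ξ (s + 1) qs = _
    rw [h]
    rfl

theorem insF_nil : ∀ (qs : List (List ℕ)) (s : ℕ), insF (fun _ => []) s qs = qs.flatten
  | [], _ => rfl
  | q :: qs, s => by
    show q ++ [] ++ insF (fun _ => []) (s + 1) qs = _
    rw [insF_nil qs (s + 1), List.append_nil, List.flatten_cons]

theorem flatten_segF (G : ℕ → List ℕ) : ∀ (qs : List (List ℕ)) (s : ℕ),
    (segF G s qs).flatten = insF G s qs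
  | [], _ => rfl
  | q :: qs, s => by
    show ((q ++ G s) :: segF G (s + 1) qs).flatten = q ++ G s ++ insF G (s + 1) qs
    rw [List.flatten_cons, flatten_segF G qs (s + 1)]

theorem insF_segF (F G : ℕ → List ℕ) : ∀ (qs : List (List ℕ)) (s : ℕ),
    insF F s (segF G s qs) = insF (fun i => G i ++ F i) s qs
  | [], _ => rfl
  | q :: qs, s => by
    show (q ++ G s) ++ F s ++ insF F (s + 1) (segF G (s + 1) qs) =
      q ++ (G s ++ F s) ++ insF (fun i => G i ++ F i) (s + 1) qs
    rw [insF_segF F G qs (s + 1)]
    simp only [List.append_assoc]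

theorem length_segF (G : ℕ → List ℕ) : ∀ (qs : List (List ℕ)) (s : ℕ),
    (segF G s qs).length = qs.length
  | [], _ => rfl
  | q :: qs, s => by
    show (segF G (s + 1) qs).length + 1 = qs.length + 1
    rw [length_segF G qs (s + 1)]

/-- the letter `l` is dead after `P` and the first segment -/
def Dh (P : List ℕ) (qs : List (List ℕ)) (l : ℕ) : Prop :=
  ∀ q qs', qs = q :: qs' → 2 ≤ (P ++ q).count l

theorem dh_of_dead {P : List ℕ} {l : ℕ} (h : 2 ≤ P.count l) (qs : List (List ℕ)) : Dh P qs l := by
  intro q qs' _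
  rw [List.count_append]
  omega

theorem insF_dead {n : ℕ} {θ : FIC} (kdd : KddStmt) (hK : Kn n θ) {F F' : ℕ → List ℕ}
    (hc : ∀ i l, (F i).count l ≡ (F' i).count l [MOD n]) :
    ∀ (qs : List (List ℕ)) (s : ℕ) (P R : List ℕ),
      (∀ i l, l ∈ F i ∨ l ∈ F' i → Dh P qs l) →
        RR θ (P ++ insF F s qs ++ R) (P ++ insF F' s qs ++ R)
  | [], _, _, _, _ => RR.refl _
  | q :: qs, s, P, R, hd => by
    have h1 := kdd n θ hK (P ++ q) (F s) (F' s) (insF F (s + 1) qs ++ R)
      (fun l hl => hd s l (Or.inl hl) q qs rfl) (fun l hl => hd s l (Or.inr hl) q qs rfl)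
      (fun l => hc s l)
    have h2 := insF_dead kdd hK hc qs (s + 1) (P ++ q ++ F' s) R (fun i l hl => by
      apply dh_of_dead
      have h3 := hd i l hl q qs rfl
      rw [List.count_append]
      omega)
    have e1 : P ++ insF F s (q :: qs) ++ R = P ++ q ++ F s ++ (insF F (s + 1) qs ++ R) := by
      show P ++ (q ++ F s ++ insF F (s + 1) qs) ++ R = _
      simp only [List.append_assoc]
    have e2 : P ++ insF F' s (q :: qs) ++ R = P ++ q ++ F' s ++ insF F' (s + 1) qs ++ R := by
      show P ++ (q ++ F' s ++ insF F' (s + 1) qs) ++ R = _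
      simp only [List.append_assoc]
    rw [e1, e2]
    refine rtrans h1 ?_
    have e3 : P ++ q ++ F' s ++ (insF F (s + 1) qs ++ R) =
        P ++ q ++ F' s ++ insF F (s + 1) qs ++ R := by
      simp only [List.append_assoc]
    rw [e3]
    exact h2

/-! ### the condition `Ok` -/

theorem ok_add {qs : List (List ℕ)} {A A' p p' : List ℕ} (h : Ok A p qs)
    (hA : ∀ l, A.count l ≤ A'.count l) (hp : ∀ z ∈ p', z ∈ p ∨ 2 ≤ A'.count z) : Ok A' p' qs := by
  cases qs with
  | nil => exact trivial
  | cons q qs =>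
    obtain ⟨h1, h2⟩ := h
    refine ⟨?_, ?_⟩
    · intro z hz
      have h3 := hA z
      rcases hp z hz with h4 | h4
      · have h5 := h1 z h4
        rw [List.count_append] at h5 ⊢
        omega
      · rw [List.count_append]
        omega
    · refine T.okm qs _ _ _ _ h2 ?_ (fun z hz => hz)
      intro l
      rw [List.count_append, List.count_append]
      have := hA l
      omega

theorem ok_seg {G : ℕ → List ℕ} : ∀ (qs : List (List ℕ)) (s : ℕ) (A p : List ℕ), Ok A p qs →
    (∀ i, ∀ l ∈ G i, Dh A qs l) → Ok A p (segF G s qs)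
  | [], _, _, _, _, _ => trivial
  | q :: qs, s, A, p, h, hd => by
    obtain ⟨h1, h2⟩ := h
    refine ⟨?_, ?_⟩
    · intro z hz
      have h3 := h1 z hz
      rw [List.count_append] at h3
      rw [List.count_append, List.count_append]
      omega
    · have h4 : Ok (A ++ (q ++ G s)) (q ++ G s) qs := by
        refine ok_add h2 ?_ ?_
        · intro l
          simp only [List.count_append]
          omega
        · intro z hz
          rcases List.mem_append.1 hz with h5 | h5
          · exact Or.inl h5
          · right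
            have h6 := hd s z h5 q qs rfl
            rw [List.count_append] at h6
            simp only [List.count_append]
            omega
      refine ok_seg qs (s + 1) _ _ h4 ?_
      intro i l hl
      apply dh_of_dead
      have h6 := hd i l hl q qs rfl
      rw [List.count_append] at h6
      simp only [List.count_append]
      omega

/-- the letters of `p` are dead after the first segment -/
theorem ok_dh {qs : List (List ℕ)} {A p : List ℕ} (h : Ok A p qs) {z : ℕ} (hz : z ∈ p) :
    Dh A qs z := by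
  intro q qs' hq
  subst hq
  exact h.1 z hz

theorem dh_mono {A A' : List ℕ} {qs : List (List ℕ)} {z : ℕ} (h : Dh A qs z)
    (hA : A.count z ≤ A'.count z) : Dh A' qs z := by
  intro q qs' hq
  have h1 := h q qs' hq
  rw [List.count_append] at h1 ⊢
  omega

/-! ### the chain -/

theorem chc_sub {w p p' cs : List ℕ} (h : Chc w p cs) (hp : ∀ z ∈ p', z ∈ p) : Chc w p' cs := by
  cases cs with
  | nil => exact fun z hz => h z (hp z hz)
  | cons c cs => exact ⟨fun z hz => h.1 z (hp z hz), h.2⟩

theorem hd_count {w p cs : List ℕ} (h : Chc w p cs) {z : ℕ} (hz : z ∈ p) :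
    (hd cs w).count z = 1 := by
  cases cs with
  | nil => exact h z hz
  | cons c cs => exact h.1 z hz

theorem hd_not_mem {w p cs : List ℕ} (h : Chc w p cs) {c : ℕ} (hc : c ∈ cs) : c ∉ hd cs w := by
  cases cs with
  | nil => exact absurd hc List.not_mem_nil
  | cons c0 cs =>
    show c ∉ pre w c0
    rcases List.mem_cons.1 hc with rfl | hc'
    · exact not_mem_pre w c
    · exact pre_asymm (h.2.2.mem_pre c0 (List.mem_cons_self) c hc')

theorem hd_pre {w cs : List ℕ} {y : ℕ} (hy : y ∈ hd cs w) : pre (hd cs w) y = pre w y := by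
  cases cs with
  | nil => rfl
  | cons c cs =>
    obtain ⟨B, hB⟩ := pre_prefix w c
    exact (pre_of_prefix hB.symm hy).symm

theorem filt_one {l cs : List ℕ} {x y : ℕ} (hy : y ∉ l) (hcs : ∀ c ∈ cs, c ∉ l) :
    l.filter (fun z => decide (z ∈ [x, y] ∨ z ∈ cs)) = List.replicate (l.count x) x := by
  rw [← List.filter_beq]
  apply List.filter_congr
  intro z hz
  rw [decide_eq_decide.2 (show (z ∈ [x, y] ∨ z ∈ cs) ↔ z = x from ?_)]
  · rfl
  · constructor
    · rintro (h | h)
      · rcases List.mem_cons.1 h with h1 | h1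
        · exact h1
        · rw [List.mem_singleton] at h1
          rw [h1] at hz
          exact absurd hz hy
      · exact absurd hz (hcs z h)
    · intro h
      left
      rw [h]
      exact List.mem_cons_self

theorem filt {W cs : List ℕ} {x y : ℕ} (hxy : x ≠ y) (hy : W.count y = 1)
    (hcs : ∀ c ∈ cs, c ∉ W) :
    ∃ b, W.filter (fun z => decide (z ∈ [x, y] ∨ z ∈ cs)) =
      List.replicate ((pre W y).count x) x ++ y :: List.replicate b x ∧
        (pre W y).count x + b = W.count x := by
  have hyW : y ∈ W := List.count_pos_iff.1 (by omega)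
  obtain ⟨B, hB⟩ := mem_split hyW
  have hyB : y ∉ B := by
    intro h
    have h1 : 0 < B.count y := List.count_pos_iff.2 h
    have h2 : W.count y = (pre W y).count y + (B.count y + 1) := by
      conv_lhs => rw [hB]
      rw [List.count_append, List.count_cons_self]
    omega
  have hsub : ∀ c ∈ cs, c ∉ pre W y ∧ c ∉ B := by
    intro c hc
    have h1 := hcs c hc
    constructor
    · intro h
      exact h1 (mem_of_mem_pre h)
    · intro h
      apply h1
      rw [hB]
      exact List.mem_append_right _ (List.mem_cons_of_mem _ h)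
  refine ⟨B.count x, ?_, ?_⟩
  · conv_lhs => rw [hB]
    rw [List.filter_append, List.filter_cons_of_pos (by simp),
      filt_one (not_mem_pre W y) (fun c hc => (hsub c hc).1),
      filt_one hyB (fun c hc => (hsub c hc).2)]
  · conv_rhs => rw [hB]
    rw [List.count_append, List.count_cons_of_ne (Ne.symm hxy)]

/-! ### the key lemma for two letters -/

/-- PUR for `L = [x, y]`, `k = 0` -/
theorem pur2 {n : ℕ} {θ : FIC} (spf : SpfStmt) (pur : PurStmt) (hK : Kn n θ) {u v : List ℕ}
    {x y : ℕ} {cs : List ℕ} (hxy : x ≠ y) (hr : RR θ u v) (hxc : x ∉ cs) (hu : Chc u [y] cs)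
    (hv : Chc v [y] cs) :
    ∃ b b' : ℕ, (pre u y).count x + b = (hd cs u).count x ∧
      (pre v y).count x + b' = (hd cs v).count x ∧ ∃ α γ : ℕ → ℕ,
        ∀ (X Y P : List ℕ) (qs : List (List ℕ)) (R : List ℕ), qs.length = cs.length →
          Ok (P ++ pw ((pre u y).count x) X ++ Y ++ pw b X) (X ++ Y) qs →
          Ok (P ++ pw ((pre v y).count x) X ++ Y ++ pw b' X) (X ++ Y) qs →
            RR θ (P ++ pw ((pre u y).count x) X ++ Y ++ pw b X ++ qs.flatten ++ R)
              (P ++ pw ((pre v y).count x) X ++ Y ++ pw b' X ++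
                insF (fun i => pw (α i) X ++ pw (γ i) Y) 0 qs ++ R) := by
  have hyc : y ∉ cs := hu.not_mem (List.mem_singleton.2 rfl)
  have hLc : ∀ z ∈ [x, y], z ∉ cs := by
    intro z hz
    rcases List.mem_cons.1 hz with h | h
    · rw [h]; exact hxc
    · rw [List.mem_singleton.1 h]; exact hyc
  obtain ⟨su, eu⟩ := spf y 0 [x, y] cs [y] u hLc hu (fun _ _ h => absurd h (by omega))
    (fun _ h => absurd h (by omega))
  obtain ⟨sv, ev⟩ := spf y 0 [x, y] cs [y] v hLc hv (fun _ _ h => absurd h (by omega))
    (fun _ h => absurd h (by omega))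
  have hcu := hd_count hu (List.mem_singleton.2 rfl)
  have hcv := hd_count hv (List.mem_singleton.2 rfl)
  obtain ⟨b, fu, bu⟩ := filt hxy hcu (fun c hc => hd_not_mem hu hc)
  obtain ⟨b', fv, bv⟩ := filt hxy hcv (fun c hc => hd_not_mem hv hc)
  rw [hd_pre (List.count_pos_iff.1 (by omega))] at fu bu fv bv
  refine ⟨b, b', bu, bv, ?_⟩
  obtain ⟨ξ, -, hξ⟩ := pur n θ hK y cs 0 [x, y] _ _ (by simp)
    (by simp [hxy]) su sv (hr.filter _)
  rw [eu, ev, fu, fv] at hξ
  refine ⟨fun i => ξ i x, fun i => ξ i y, ?_⟩
  intro X Y P qs R hlen hU hV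
  obtain ⟨g, hg⟩ : ∃ g : ℕ → List ℕ, g = fun z => if z = x then X else if z = y then Y else [] :=
    ⟨_, rfl⟩
  have hgx : g x = X := by rw [hg]; simp
  have hgy : g y = Y := by rw [hg]; simp [Ne.symm hxy]
  have e1 : ∀ i j, (List.replicate i x ++ y :: List.replicate j x).flatMap g =
      pw i X ++ Y ++ pw j X := by
    intro i j
    rw [List.flatMap_append, List.flatMap_cons, flatMap_rep, flatMap_rep, hgx, hgy,
      List.append_assoc]
  have hok : ∀ i j, Ok (P ++ pw i X ++ Y ++ pw j X) (X ++ Y) qs →
      Okd g y 0 [x, y] P (List.replicate i x ++ y :: List.replicate j x) qs := by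
    intro i j h
    unfold Okd
    rw [e1]
    have e2 : P ++ (pw i X ++ Y ++ pw j X) = P ++ pw i X ++ Y ++ pw j X := by
      simp only [List.append_assoc]
    rw [e2]
    constructor
    · refine T.okm qs _ _ _ _ h (fun l => le_refl _) ?_
      intro z hz
      obtain ⟨w, hw, hz⟩ := List.mem_flatMap.1 hz
      have h1 := (List.mem_filter.1 hw).1
      rcases List.mem_cons.1 h1 with h2 | h2
      · rw [h2, hgx] at hz
        exact List.mem_append_left _ hz
      · rw [List.mem_singleton.1 h2, hgy] at hz
        exact List.mem_append_right _ hz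
    · intro hpos l hl
      rw [hgy] at hl
      cases qs with
      | nil => simp at hpos
      | cons q qs =>
        have h3 := h.1 l (List.mem_append_right _ hl)
        simpa using h3
  have hmain := hξ g P qs R hlen (hok _ _ hU) (hok _ _ hV)
  rw [e1, e1, ins_eq] at hmain
  have e3 : (fun i => [x, y].flatMap (fun z => pw (ξ i z) (g z))) =
      fun i => pw (ξ i x) X ++ pw (ξ i y) Y := by
    funext i
    rw [List.flatMap_cons, List.flatMap_cons, List.flatMap_nil, List.append_nil, hgx, hgy]
  rw [e3] at hmain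
  simp only [List.append_assoc] at hmain ⊢
  exact hmain

end Pool.Agent.MWKP.H39
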